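import Pool.Agent.K1H44.BC.Plan

/-!
# Project BC: crude upper bound for the last prime
-/

set_option autoImplicit false

open Finset Nat

namespace Pool.Agent.K1H8.BC

open Pool.Agent.K1H44.BC

theorem dyadic {δ η : ℝ} {X₀ : ℕ} (hδ : 0 < δ) (hη : 0 < η) (hX₀ : 2 ≤ X₀)
    (h : ∀ X Y : ℕ, X₀ ≤ X → (X : ℝ) ^ (1 - δ) ≤ Y → Y ≤ X →
      η * Y / Real.log X ≤ (((Ioc X (X + Y)).filter Nat.Prime).card : ℝ)) (X : ℕ)
    (hX : X₀ ≤ X) (hX' : (4 / η) ^ 4 ≤ (X : ℝ)) :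
    (X : ℝ) ≤ (((Ioc X (X + X)).filter Nat.Prime).card : ℝ) ^ 2 := by
  have hX2 : (2 : ℝ) ≤ X := by exact_mod_cast hX₀.trans hX
  have hX0 : (0 : ℝ) < X := by linarith
  have h1 := h X X hX (by
    calc (X : ℝ) ^ (1 - δ) ≤ (X : ℝ) ^ (1 : ℝ) :=
          Real.rpow_le_rpow_of_exponent_le (by linarith) (by linarith)
      _ = X := Real.rpow_one _) le_rfl
  obtain ⟨t, ht⟩ : ∃ t : ℝ, t = (X : ℝ) ^ (1 / 4 : ℝ) := ⟨_, rfl⟩
  have ht0 : 0 < t := by rw [ht]; positivity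
  have ht4 : t ^ 4 = X := by
    rw [ht, ← Real.rpow_natCast, ← Real.rpow_mul hX0.le]
    norm_num
  have hlog : Real.log X ≤ 4 * t := by
    have h2 := Real.log_le_rpow_div hX0.le (show (0 : ℝ) < 1 / 4 by norm_num)
    rw [← ht] at h2
    linarith
  have hlog0 : 0 < Real.log X := Real.log_pos (by linarith)
  have h3 : 4 ≤ η * t := by
    have h4 : 4 / η ≤ t := by
      refine le_of_pow_le_pow_left₀ (n := 4) (by norm_num) ht0.le ?_
      rw [ht4]; exact hX'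
    rw [div_le_iff₀ hη] at h4
    linarith
  have h5 : t ^ 2 ≤ η * X / Real.log X := by
    rw [le_div_iff₀ hlog0]
    calc t ^ 2 * Real.log X ≤ t ^ 2 * (4 * t) := mul_le_mul_of_nonneg_left hlog (by positivity)
      _ = 4 * t ^ 3 := by ring
      _ ≤ (η * t) * t ^ 3 := mul_le_mul_of_nonneg_right h3 (by positivity)
      _ = η * t ^ 4 := by ring
      _ = η * X := by rw [ht4]
  calc (X : ℝ) = (t ^ 2) ^ 2 := by rw [← ht4]; ring
    _ ≤ _ := pow_le_pow_left₀ (by positivity) (h5.trans h1) 2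

theorem t_TOP : S_TOP := by
  rintro ⟨δ, η, hδ, -, hη, X₀, hX₀, h⟩
  obtain ⟨X2, hX2⟩ : ∃ X2 : ℕ, X2 = max X₀ ⌈(4 / η) ^ 4⌉₊ := ⟨_, rfl⟩
  refine ⟨2 * X2 + 2, by positivity, ?_⟩
  intro x y hxy hy
  obtain ⟨s, hs⟩ : ∃ s, s = (PB x y).card := ⟨_, rfl⟩
  rw [← hs]
  obtain ⟨X, hX⟩ : ∃ X, X = max x (max (s ^ 2) X2) := ⟨_, rfl⟩
  have hXx : x ≤ X := by rw [hX]; exact le_max_left _ _
  have hXs : s ^ 2 ≤ X := by rw [hX]; exact (le_max_left _ _).trans (le_max_right _ _)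
  have hX2' : X2 ≤ X := by rw [hX]; exact (le_max_right _ _).trans (le_max_right _ _)
  have hXX₀ : X₀ ≤ X := by
    refine le_trans ?_ hX2'
    rw [hX2]; exact le_max_left _ _
  have hXc : (4 / η) ^ 4 ≤ (X : ℝ) := by
    refine (Nat.le_ceil _).trans ?_
    have : ⌈(4 / η) ^ 4⌉₊ ≤ X := by
      refine le_trans ?_ hX2'
      rw [hX2]; exact le_max_right _ _
    exact_mod_cast this
  have hup : X ≤ x + s ^ 2 + X2 := by
    rw [hX]
    refine max_le (by omega) (max_le (by omega) (by omega))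
  have hmain : y ≤ 2 * X := by
    by_contra hcon
    push Not at hcon
    have h1 := dyadic hδ hη hX₀ h X hXX₀ hXc
    have h2 : X ≤ ((Ioc X (X + X)).filter Nat.Prime).card ^ 2 := by exact_mod_cast h1
    have h3 : insert y ((Ioc X (X + X)).filter Nat.Prime) ⊆ PB x y := by
      intro p hp
      rw [Finset.mem_insert] at hp
      unfold PB
      rw [Finset.mem_filter, Finset.mem_Icc]
      rcases hp with rfl | hp
      · exact ⟨⟨hxy, le_rfl⟩, hy⟩
      · rw [Finset.mem_filter, Finset.mem_Ioc] at hp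
        exact ⟨⟨by omega, by omega⟩, hp.2⟩
    have h4 := Finset.card_le_card h3
    rw [Finset.card_insert_of_notMem (by
      rw [Finset.mem_filter, Finset.mem_Ioc]
      omega), ← hs] at h4
    have h5 : ((Ioc X (X + X)).filter Nat.Prime).card < s := h4
    have h6 : ((Ioc X (X + X)).filter Nat.Prime).card ^ 2 < s ^ 2 :=
      Nat.pow_lt_pow_left h5 (by norm_num)
    omega
  have h7 : (y : ℝ) ≤ 2 * ((x : ℝ) + (s : ℝ) ^ 2 + X2) := by
    exact_mod_cast hmain.trans (Nat.mul_le_mul_left 2 hup)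
  have h8 : (0 : ℝ) ≤ x := Nat.cast_nonneg _
  have h9 : (0 : ℝ) ≤ (s : ℝ) ^ 2 := by positivity
  have h10 : (0 : ℝ) ≤ X2 := Nat.cast_nonneg _
  nlinarith [mul_nonneg h10 h8, mul_nonneg h10 h9]

end Pool.Agent.K1H8.BC
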